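import Mathlib

set_option autoImplicit false

namespace Pool.Agent.Results.MP_aff17b_co.Level

open Fin

/-- The `s`-lecture hall simplex in dimension `n + 1`. -/
def P {n : ℕ} (s : Fin (n + 1) → ℕ) : Set (Fin (n + 1) → ℝ) :=
  {x | 0 ≤ x 0 / s 0 ∧ (∀ j : Fin n, x j.castSucc / s j.castSucc ≤ x j.succ / s j.succ) ∧
    x (last n) / s (last n) ≤ 1}

/-- The cone over `Q × {1}`. -/
def cone {m : ℕ} (Q : Set (Fin m → ℝ)) : Set ((Fin m → ℝ) × ℝ) :=
  {p | ∃ t : ℝ, 0 ≤ t ∧ ∃ x ∈ Q, p = (t • x, t)}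

/-- The real point of a lattice point. -/
def pt {m : ℕ} (u : (Fin m → ℤ) × ℤ) : (Fin m → ℝ) × ℝ := (fun i => (u.1 i : ℝ), (u.2 : ℝ))

/-- Level: with `d₀` the least height of an interior lattice point of the cone, every interior
lattice point is an interior lattice point of height `d₀` plus a lattice point of the cone. -/
def IsLevel {m : ℕ} (Q : Set (Fin m → ℝ)) : Prop :=
  ∃ d₀ : ℤ, IsLeast {h | ∃ x, pt (x, h) ∈ interior (cone Q)} d₀ ∧
    ∀ w, pt w ∈ interior (cone Q) →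
      ∃ u v, pt u ∈ interior (cone Q) ∧ u.2 = d₀ ∧ pt v ∈ cone Q ∧ w = u + v

section
variable {n : ℕ} {s : Fin (n + 1) → ℕ}

theorem chain_mono {f : Fin (n + 1) → ℝ} (h : ∀ j : Fin n, f j.castSucc ≤ f j.succ) :
    Monotone f := Fin.monotone_iff_le_succ.2 h

theorem mem_cone (hs : ∀ i, 0 < s i) (p : (Fin (n + 1) → ℝ) × ℝ) : p ∈ cone (P s) ↔
    0 ≤ p.1 0 / s 0 ∧ (∀ j : Fin n, p.1 j.castSucc / s j.castSucc ≤ p.1 j.succ / s j.succ) ∧
      p.1 (last n) / s (last n) ≤ p.2 := by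
  constructor
  · rintro ⟨t, ht, x, ⟨h1, h2, h3⟩, rfl⟩
    simp only [Pi.smul_apply, smul_eq_mul, mul_div_assoc]
    exact ⟨mul_nonneg ht h1, fun j => mul_le_mul_of_nonneg_left (h2 j) ht,
      mul_le_of_le_one_right ht h3⟩
  · obtain ⟨x, t⟩ := p
    rintro ⟨h1, h2, h3⟩
    have hm : Monotone fun i => x i / s i := chain_mono h2
    have ht : 0 ≤ t := (h1.trans (hm (zero_le _))).trans h3
    rcases ht.eq_or_lt with rfl | ht'
    · refine ⟨0, le_rfl, 0, ⟨by simp, fun j => by simp, by simp⟩, Prod.ext (funext fun i => ?_) rfl⟩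
      have h4 : x i / s i = 0 :=
        le_antisymm ((hm (le_last i)).trans h3) (h1.trans (hm (zero_le _)))
      have h5 : (s i : ℝ) ≠ 0 := by exact_mod_cast (hs i).ne'
      simpa [h5] using h4
    · refine ⟨t, ht, t⁻¹ • x, ⟨?_, fun j => ?_, ?_⟩, Prod.ext ?_ rfl⟩
      · simp only [Pi.smul_apply, smul_eq_mul, mul_div_assoc]
        exact mul_nonneg (inv_nonneg.2 ht) h1
      · simp only [Pi.smul_apply, smul_eq_mul, mul_div_assoc]
        exact mul_le_mul_of_nonneg_left (h2 j) (inv_nonneg.2 ht)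
      · simp only [Pi.smul_apply, smul_eq_mul, mul_div_assoc]
        exact (inv_mul_le_iff₀ ht').2 (by simpa using h3)
      · simp [smul_smul, ht'.ne']

theorem exists_sub {E : Type} [AddCommGroup E] [Module ℝ E] [TopologicalSpace E]
    [IsTopologicalAddGroup E] [ContinuousSMul ℝ E] {C : Set E} {p : E} (h : p ∈ interior C)
    (v : E) : ∃ ε : ℝ, 0 < ε ∧ p - ε • v ∈ C := by
  have h1 : Continuous fun ε : ℝ => p - ε • v := by fun_prop
  have h2 : ∀ᶠ ε in nhds (0 : ℝ), p - ε • v ∈ C :=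
    h1.continuousAt.preimage_mem_nhds (by simpa using mem_interior_iff_mem_nhds.1 h)
  exact ((h2.filter_mono nhdsWithin_le_nhds).and (self_mem_nhdsWithin (s := Set.Ioi 0))).exists.imp
    fun ε hε => ⟨hε.2, hε.1⟩

theorem mem_int (hs : ∀ i, 0 < s i) (p : (Fin (n + 1) → ℝ) × ℝ) : p ∈ interior (cone (P s)) ↔
    0 < p.1 0 / s 0 ∧ (∀ j : Fin n, p.1 j.castSucc / s j.castSucc < p.1 j.succ / s j.succ) ∧
      p.1 (last n) / s (last n) < p.2 := by
  have hs' : ∀ i, (s i : ℝ) ≠ 0 := fun i => by exact_mod_cast (hs i).ne'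
  constructor
  · intro h
    obtain ⟨ε, h0, h1⟩ := exists_sub h (fun i => (i.1 + 1) * s i, n + 2)
    obtain ⟨h2, h3, h4⟩ := (mem_cone hs _).1 h1
    have e : ∀ i, (p - ε • ((fun i => (i.1 + 1) * s i, n + 2) : (Fin (n + 1) → ℝ) × ℝ)).1 i / s i =
        p.1 i / s i - ε * (i.1 + 1) := fun i => by
      simp only [Prod.fst_sub, Prod.smul_fst, Pi.sub_apply, Pi.smul_apply, smul_eq_mul]
      field_simp [hs' i]
    rw [e] at h2 h4
    simp only [Prod.snd_sub, Prod.smul_snd, smul_eq_mul, val_last, val_zero] at h2 h4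
    refine ⟨by push_cast at h2; linarith, fun j => ?_, by linarith⟩
    have h5 := h3 j
    rw [e, e] at h5
    simp only [val_castSucc, val_succ] at h5
    push_cast at h5
    linarith
  · intro h
    refine mem_interior.2 ⟨{p | 0 < p.1 0 / s 0 ∧
      (∀ j : Fin n, p.1 j.castSucc / s j.castSucc < p.1 j.succ / s j.succ) ∧
      p.1 (last n) / s (last n) < p.2}, fun q hq => (mem_cone hs q).2
        ⟨hq.1.le, fun j => (hq.2.1 j).le, hq.2.2.le⟩, ?_, h⟩
    have o1 : IsOpen {p : (Fin (n + 1) → ℝ) × ℝ | 0 < p.1 0 / s 0} :=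
      isOpen_lt (by fun_prop) (by fun_prop)
    have o2 : IsOpen {p : (Fin (n + 1) → ℝ) × ℝ | p.1 (last n) / s (last n) < p.2} :=
      isOpen_lt (by fun_prop) (by fun_prop)
    refine o1.inter (IsOpen.inter ?_ o2)
    have := isOpen_iInter_of_finite (s := fun j : Fin n => {p : (Fin (n + 1) → ℝ) × ℝ |
      p.1 j.castSucc / s j.castSucc < p.1 j.succ / s j.succ})
      fun j => isOpen_lt (by fun_prop) (by fun_prop)
    rwa [← Set.ofPred_forall] at this

theorem pt_cone (hs : ∀ i, 0 < s i) (u : (Fin (n + 1) → ℤ) × ℤ) : pt u ∈ cone (P s) ↔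
    0 ≤ u.1 0 ∧ (∀ j : Fin n, u.1 j.castSucc * s j.succ ≤ u.1 j.succ * s j.castSucc) ∧
      u.1 (last n) ≤ u.2 * s (last n) := by
  have hs' : ∀ i, (0 : ℝ) < s i := fun i => by exact_mod_cast hs i
  rw [mem_cone hs]
  simp only [pt, div_le_div_iff₀ (hs' _) (hs' _), div_le_iff₀ (hs' _), le_div_iff₀ (hs' _),
    zero_mul]
  norm_cast

theorem pt_int (hs : ∀ i, 0 < s i) (u : (Fin (n + 1) → ℤ) × ℤ) : pt u ∈ interior (cone (P s)) ↔
    0 < u.1 0 ∧ (∀ j : Fin n, u.1 j.castSucc * s j.succ < u.1 j.succ * s j.castSucc) ∧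
      u.1 (last n) < u.2 * s (last n) := by
  have hs' : ∀ i, (0 : ℝ) < s i := fun i => by exact_mod_cast hs i
  rw [mem_int hs]
  simp only [pt, div_lt_div_iff₀ (hs' _) (hs' _), div_lt_iff₀ (hs' _), lt_div_iff₀ (hs' _),
    zero_mul]
  norm_cast

end

theorem result (n : ℕ) (s : Fin (n + 1) → ℕ) (hs : ∀ i, 1 ≤ s i) (c : Fin (n + 1) → ℤ)
    (h0 : c 0 = 1) (hc : ∀ j : Fin n, c j.succ * s j.castSucc =
      c j.castSucc * s j.succ + Nat.gcd (s j.castSucc) (s j.succ)) :
    IsLevel (P s) := by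
  have hs' : ∀ i, (0 : ℤ) < s i := fun i => by exact_mod_cast hs i
  have hg : ∀ j : Fin n, (0 : ℤ) < Nat.gcd (s j.castSucc) (s j.succ) := fun j => by
    exact_mod_cast Nat.gcd_pos_of_pos_left _ (hs _)
  have hd : c (last n) < (c (last n) / s (last n) + 1) * s (last n) :=
    Int.lt_ediv_add_one_mul_self _ (hs' _)
  have step : ∀ w, pt w ∈ interior (cone (P s)) → ∀ j : Fin n,
      (w.1 j.castSucc - c j.castSucc) * s j.succ ≤ (w.1 j.succ - c j.succ) * s j.castSucc := by
    intro w hw j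
    have h1 := ((pt_int hs w).1 hw).2.1 j
    have h2 : ((Nat.gcd (s j.castSucc) (s j.succ) : ℕ) : ℤ) ∣
        w.1 j.succ * s j.castSucc - w.1 j.castSucc * s j.succ :=
      dvd_sub (Dvd.dvd.mul_left (Int.natCast_dvd_natCast.2 (Nat.gcd_dvd_left _ _)) _)
        (Dvd.dvd.mul_left (Int.natCast_dvd_natCast.2 (Nat.gcd_dvd_right _ _)) _)
    have h3 := Int.le_of_dvd (by omega) h2
    have h4 := hc j
    linarith
  have pos : ∀ w, pt w ∈ interior (cone (P s)) → ∀ i, 0 ≤ w.1 i - c i := by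
    intro w hw i
    induction i using Fin.induction with
    | zero => have := ((pt_int hs w).1 hw).1; omega
    | succ j ih =>
      exact nonneg_of_mul_nonneg_left
        ((mul_nonneg ih (hs' j.succ).le).trans (step w hw j)) (hs' j.castSucc)
  have low : ∀ w, pt w ∈ interior (cone (P s)) → c (last n) / s (last n) + 1 ≤ w.2 := by
    intro w hw
    have h1 := ((pt_int hs w).1 hw).2.2
    have h2 := pos w hw (last n)
    exact Int.add_one_le_of_lt (Int.ediv_lt_of_lt_mul (hs' _) (by omega))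
  refine ⟨c (last n) / s (last n) + 1, ⟨⟨c, (pt_int hs _).2 ⟨by simp [h0], fun j => ?_, hd⟩⟩,
    fun h ⟨x, hx⟩ => low _ hx⟩, fun w hw => ?_⟩
  · have := hc j
    have := hg j
    simp only
    omega
  · set d := c (last n) / s (last n) + 1
    have hm : 0 ≤ w.2 - d := by have := low w hw; omega
    refine ⟨(fun i => c i + max (w.1 i - c i - (w.2 - d) * s i) 0, d),
      (fun i => min (w.1 i - c i) ((w.2 - d) * s i), w.2 - d), (pt_int hs _).2 ⟨?_, fun j => ?_, ?_⟩,
      rfl, (pt_cone hs _).2 ⟨?_, fun j => ?_, min_le_right _ _⟩,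
      Prod.ext (funext fun i => ?_) (by simp)⟩
    · simp only [h0]
      omega
    · have h1 := hc j
      have h2 := hg j
      have h3 := step w hw j
      have h4 : max (w.1 j.castSucc - c j.castSucc - (w.2 - d) * s j.castSucc) 0 * s j.succ ≤
          max (w.1 j.succ - c j.succ - (w.2 - d) * s j.succ) 0 * s j.castSucc := by
        rw [max_mul_of_nonneg _ _ (hs' _).le, max_mul_of_nonneg _ _ (hs' _).le, zero_mul, zero_mul]
        exact max_le_max (by linarith) le_rfl
      simp only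
      linarith
    · have h1 := ((pt_int hs w).1 hw).2.2
      simp only
      rcases le_total (w.1 (last n) - c (last n) - (w.2 - d) * s (last n)) 0 with h | h
      · rw [max_eq_right h]
        linarith
      · rw [max_eq_left h]
        linarith
    · exact le_min (pos w hw 0) (mul_nonneg hm (hs' 0).le)
    · simp only
      rw [min_mul_of_nonneg _ _ (hs' _).le, min_mul_of_nonneg _ _ (hs' _).le]
      exact min_le_min (step w hw j) (by linarith)
    · simp only [Prod.fst_add, Pi.add_apply]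
      omega

end Pool.Agent.Results.MP_aff17b_co.Level
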